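import Pool.Agent.Work.MP_2967d5_an.AO.Main

/-! Over a partially rigid base the strongly mixing extensions are meagre; over any other base even
the extensions that are mixing of all orders relative to the base are residual. -/

open MeasureTheory Pool.Agent.Work.MP_2967d5_an

namespace Pool.Agent.Results.MP_2967d5_an.AllOrders

theorem result {X Y : Type} [MeasurableSpace X] [MeasurableSpace Y] [StandardBorelSpace X]
    [StandardBorelSpace Y] (m : Measure X) (η : Measure Y) [IsProbabilityMeasure m]
    [IsProbabilityMeasure η] [NullSingletonClass η] :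
    (∀ R : Aut m, (IsMeagre (MixingExtensions η R) ↔ PartiallyRigid R) ∧
      AllOrderMixing η R ⊆ MixingExtensions η R ∧
      (AllOrderMixing η R ∈ residual (Extensions η R) ↔ ¬ PartiallyRigid R)) ∧
    (NullSingletonClass m →
      (∃ R : Aut m, IsMixing R) ∧ ∀ R : Aut m, IsMixing R → ¬ PartiallyRigid R) :=
  ⟨fun R => ⟨(classification R).1, AO.allOrder_subset R, AO.allOrder_residual R⟩,
    fun _ => ⟨exists_mixing m, fun _ hR => (nr_of_mixing hR).not_rigid⟩⟩

end Pool.Agent.Results.MP_2967d5_an.AllOrders
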